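import Mathlib

/-!
# MP_5fe329_al : the big polynomial ring need not be a polynomial algebra over its
bounded-denominator subring

For every prime `p` there is an integral domain `A` of characteristic `p` with perfect fraction
field such that `R` is not a polynomial algebra over `R♭`. If `R` were a polynomial `R♭`-algebra,
there would be a retraction `R → R♭` of `R♭`-algebras, so that every `g ∈ R` with `g ^ p ∈ R♭`
would lie in `R♭`. For `A` we take the monoid algebra over `𝔽_p` of the monoid of all finitely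
supported families of rational numbers each of which is `0` or at least `1`, and
`g = ∑ t_j^(1/p) x_j`.
-/

namespace Pool.Agent.Results.MP_5fe329_al.NotPolynomialOverFlat

universe u

/-- The power series in `x_0, x_1, …` of bounded degree. -/
def IsBounded {K : Type} [Field K] (f : MvPowerSeries ℕ K) : Prop :=
  ∃ d : ℕ, ∀ m : ℕ →₀ ℕ, MvPowerSeries.coeff m f ≠ 0 → m.degree ≤ d

section bounded

variable {K : Type} [Field K] {f g : MvPowerSeries ℕ K}

theorem IsBounded.mul (hf : IsBounded f) (hg : IsBounded g) : IsBounded (f * g) := by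
  classical
  obtain ⟨d, hd⟩ := hf
  obtain ⟨d', hd'⟩ := hg
  refine ⟨d + d', fun m hm => ?_⟩
  rw [MvPowerSeries.coeff_mul] at hm
  obtain ⟨q, hq, hne⟩ := Finset.exists_ne_zero_of_sum_ne_zero hm
  rw [Finset.HasAntidiagonal.mem_antidiagonal] at hq
  rw [← hq, map_add]
  exact add_le_add (hd _ (left_ne_zero_of_mul hne)) (hd' _ (right_ne_zero_of_mul hne))

theorem IsBounded.one : IsBounded (1 : MvPowerSeries ℕ K) := by
  classical
  refine ⟨0, fun m hm => ?_⟩
  rw [MvPowerSeries.coeff_one] at hm
  have : m = 0 := by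
    by_contra h
    rw [if_neg h] at hm
    exact hm rfl
  rw [this, map_zero]

theorem IsBounded.add (hf : IsBounded f) (hg : IsBounded g) : IsBounded (f + g) := by
  obtain ⟨d, hd⟩ := hf
  obtain ⟨d', hd'⟩ := hg
  refine ⟨max d d', fun m hm => ?_⟩
  rw [map_add] at hm
  by_cases h : MvPowerSeries.coeff m f = 0
  · rw [h, zero_add] at hm
    exact le_max_of_le_right (hd' m hm)
  · exact le_max_of_le_left (hd m h)

theorem IsBounded.zero : IsBounded (0 : MvPowerSeries ℕ K) :=
  ⟨0, fun m hm => by rw [map_zero] at hm; exact absurd rfl hm⟩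

theorem IsBounded.neg (hf : IsBounded f) : IsBounded (-f) := by
  obtain ⟨d, hd⟩ := hf
  refine ⟨d, fun m hm => hd m ?_⟩
  rw [map_neg] at hm
  exact fun h => hm (by rw [h, neg_zero])

end bounded

/-- The ring `R` for the field `K`: the power series in `x_0, x_1, …` over `K` of bounded degree
(that is, the finite sums of homogeneous power series). -/
def BD (K : Type) [Field K] : Subring (MvPowerSeries ℕ K) where
  carrier := {f | IsBounded f}
  mul_mem' := IsBounded.mul
  one_mem' := IsBounded.one
  add_mem' := IsBounded.add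
  zero_mem' := IsBounded.zero
  neg_mem' := IsBounded.neg

/-- The series `f` has bounded denominators: for some nonzero `a ∈ A` all coefficients of `a f`
lie in (the image of) `A`. -/
def HasDenom (A : Type) {K : Type} [CommRing A] [Field K] [Algebra A K]
    (f : MvPowerSeries ℕ K) : Prop :=
  ∃ a : A, a ≠ 0 ∧ ∀ m : ℕ →₀ ℕ,
    ∃ b : A, algebraMap A K a * MvPowerSeries.coeff m f = algebraMap A K b

section denom

variable {A K : Type} [CommRing A] [IsDomain A] [Field K] [Algebra A K] {f g : MvPowerSeries ℕ K}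

theorem HasDenom.mul (hf : HasDenom A f) (hg : HasDenom A g) : HasDenom A (f * g) := by
  classical
  obtain ⟨a, ha, hf⟩ := hf
  obtain ⟨a', ha', hg⟩ := hg
  refine ⟨a * a', mul_ne_zero ha ha', fun m => ?_⟩
  choose b hb using hf
  choose b' hb' using hg
  refine ⟨∑ q ∈ Finset.HasAntidiagonal.antidiagonal m, b q.1 * b' q.2, ?_⟩
  rw [MvPowerSeries.coeff_mul, Finset.mul_sum, map_sum]
  apply Finset.sum_congr rfl
  intro q _
  rw [map_mul, map_mul, ← hb, ← hb']
  ring

theorem HasDenom.one : HasDenom A (1 : MvPowerSeries ℕ K) := by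
  classical
  refine ⟨1, one_ne_zero, fun m => ?_⟩
  rw [MvPowerSeries.coeff_one]
  by_cases h : m = 0
  · exact ⟨1, by rw [if_pos h, mul_one]⟩
  · exact ⟨0, by rw [if_neg h, mul_zero, map_zero]⟩

theorem HasDenom.add (hf : HasDenom A f) (hg : HasDenom A g) : HasDenom A (f + g) := by
  obtain ⟨a, ha, hf⟩ := hf
  obtain ⟨a', ha', hg⟩ := hg
  refine ⟨a * a', mul_ne_zero ha ha', fun m => ?_⟩
  obtain ⟨b, hb⟩ := hf m
  obtain ⟨b', hb'⟩ := hg m
  refine ⟨a' * b + a * b', ?_⟩
  rw [map_add, map_mul, map_add, map_mul, map_mul, ← hb, ← hb']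
  ring

theorem HasDenom.zero : HasDenom A (0 : MvPowerSeries ℕ K) :=
  ⟨1, one_ne_zero, fun m => ⟨0, by rw [map_zero, mul_zero, map_zero]⟩⟩

omit [IsDomain A] in
theorem HasDenom.neg (hf : HasDenom A f) : HasDenom A (-f) := by
  obtain ⟨a, ha, hf⟩ := hf
  refine ⟨a, ha, fun m => ?_⟩
  obtain ⟨b, hb⟩ := hf m
  refine ⟨-b, ?_⟩
  rw [map_neg, mul_neg, hb, map_neg]

end denom

/-- The subring `R♭` of `R`: the series with bounded denominators. -/
def flat (A K : Type) [CommRing A] [IsDomain A] [Field K] [Algebra A K] : Subring (BD K) where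
  carrier := {f | HasDenom A (f : MvPowerSeries ℕ K)}
  mul_mem' := HasDenom.mul
  one_mem' := HasDenom.one
  add_mem' := HasDenom.add
  zero_mem' := HasDenom.zero
  neg_mem' := HasDenom.neg

/-- `R` is isomorphic, as an algebra over its subring `R♭`, to the polynomial ring over `R♭` in
variables indexed by `I`. -/
def IsPolynomialOver (A K : Type) [CommRing A] [IsDomain A] [Field K] [Algebra A K]
    (I : Type u) : Prop :=
  Nonempty (MvPolynomial I (flat A K) ≃ₐ[flat A K] BD K)

section general

variable (A K : Type) [CommRing A] [IsDomain A] [Field K] [Algebra A K]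

/-- If `R` is a polynomial algebra over `R♭` then `R♭` is closed under `p`-th roots in `R`. -/
theorem root_mem (p : ℕ) [Fact p.Prime] [CharP K p] (I : Type u)
    (e : MvPolynomial I (flat A K) ≃ₐ[flat A K] BD K) (g : BD K) (hg : g ^ p ∈ flat A K) :
    g ∈ flat A K := by
  let ρ : BD K →ₐ[flat A K] flat A K :=
    (MvPolynomial.aeval (fun _ : I => (0 : flat A K))).comp e.symm.toAlgHom
  have h1 : (ρ g) ^ p = (⟨g ^ p, hg⟩ : flat A K) := by
    rw [← map_pow]
    exact ρ.commutes ⟨g ^ p, hg⟩
  have h2 : (((ρ g : flat A K) : BD K) : MvPowerSeries ℕ K) ^ p = (g : MvPowerSeries ℕ K) ^ p := by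
    have := congrArg (fun x : flat A K => ((x : BD K) : MvPowerSeries ℕ K)) h1
    simpa using this
  have : CharP (MvPowerSeries ℕ K) p :=
    charP_of_injective_algebraMap (algebraMap K (MvPowerSeries ℕ K)).injective p
  have h3 : ((((ρ g : flat A K) : BD K) : MvPowerSeries ℕ K) - g) ^ p = 0 := by
    rw [sub_pow_char, h2, sub_self]
  have h4 : (((ρ g : flat A K) : BD K) : MvPowerSeries ℕ K) - g = 0 :=
    (pow_eq_zero_iff (Fact.out : p.Prime).ne_zero).1 h3
  have h5 : ((ρ g : flat A K) : BD K) = g := Subtype.ext (sub_eq_zero.1 h4)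
  rw [← h5]
  exact (ρ g).2

/-- The series `∑ τ_j x_j`. -/
noncomputable def lin (τ : ℕ → K) : MvPowerSeries ℕ K := by
  classical
  exact fun m => if h : ∃ j, m = Finsupp.single j 1 then τ h.choose else 0

theorem coeff_lin_single (τ : ℕ → K) (j : ℕ) :
    MvPowerSeries.coeff (Finsupp.single j 1) (lin K τ) = τ j := by
  classical
  have h : ∃ i, (Finsupp.single j 1 : ℕ →₀ ℕ) = Finsupp.single i 1 := ⟨j, rfl⟩
  have h1 : MvPowerSeries.coeff (Finsupp.single j 1) (lin K τ) = τ h.choose := by
    show (lin K τ) (Finsupp.single j 1) = _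
    unfold lin
    rw [dif_pos h]
  have h2 : j = h.choose := by
    have := h.choose_spec
    exact (Finsupp.single_left_inj one_ne_zero).1 this
  rw [h1, ← h2]

theorem coeff_lin_of_ne (τ : ℕ → K) (m : ℕ →₀ ℕ) (h : ¬ ∃ j, m = Finsupp.single j 1) :
    MvPowerSeries.coeff m (lin K τ) = 0 := by
  show (lin K τ) m = _
  unfold lin
  rw [dif_neg h]

theorem lin_mem (τ : ℕ → K) : lin K τ ∈ BD K := by
  refine ⟨1, fun m hm => ?_⟩
  by_cases h : ∃ j, m = Finsupp.single j 1
  · obtain ⟨j, rfl⟩ := h
    rw [Finsupp.degree_single]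
  · exact absurd (coeff_lin_of_ne K τ m h) hm

theorem coeff_lin_pow (p : ℕ) [Fact p.Prime] [CharP K p] (τ : ℕ → K) (m : ℕ →₀ ℕ) :
    MvPowerSeries.coeff m (lin K τ ^ p) =
      ∑ j ∈ m.support, if m = p • Finsupp.single j 1 then τ j ^ p else 0 := by
  classical
  have : CharP (MvPowerSeries ℕ K) p :=
    charP_of_injective_algebraMap (algebraMap K (MvPowerSeries ℕ K)).injective p
  set g1 : MvPowerSeries ℕ K := ∑ j ∈ m.support, MvPowerSeries.monomial (Finsupp.single j 1) (τ j)
    with hg1
  set h := lin K τ - g1 with hh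
  have hcoeff : ∀ n : ℕ →₀ ℕ, n ≤ m → MvPowerSeries.coeff n h = 0 := by
    intro n hn
    rw [hh, map_sub, hg1, map_sum]
    by_cases hj : ∃ j, n = Finsupp.single j 1
    · obtain ⟨j, rfl⟩ := hj
      have hjm : j ∈ m.support := by
        rw [Finsupp.mem_support_iff]
        have := hn j
        rw [Finsupp.single_eq_same] at this
        omega
      rw [coeff_lin_single, Finset.sum_eq_single j]
      · rw [MvPowerSeries.coeff_monomial_same, sub_self]
      · intro i _ hij
        rw [MvPowerSeries.coeff_monomial_ne]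
        intro h1
        exact hij ((Finsupp.single_left_inj one_ne_zero).1 h1).symm
      · intro h1
        exact absurd hjm h1
    · rw [coeff_lin_of_ne K τ n hj, Finset.sum_eq_zero, sub_zero]
      intro i _
      rw [MvPowerSeries.coeff_monomial_ne]
      intro h1
      exact hj ⟨i, h1⟩
  have hp : p = (p - 1) + 1 := (Nat.sub_add_cancel (Fact.out : p.Prime).one_lt.le).symm
  have hpow : MvPowerSeries.coeff m (h ^ p) = 0 := by
    rw [hp, pow_succ', MvPowerSeries.coeff_mul]
    apply Finset.sum_eq_zero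
    intro q hq
    rw [Finset.HasAntidiagonal.mem_antidiagonal] at hq
    rw [hcoeff q.1 (by rw [← hq]; exact le_self_add), zero_mul]
  have hsum : lin K τ = g1 + h := by rw [hh]; ring
  rw [hsum, add_pow_char, map_add, hpow, add_zero, hg1, sum_pow_char, map_sum]
  apply Finset.sum_congr rfl
  intro j _
  rw [MvPowerSeries.monomial_pow, MvPowerSeries.coeff_monomial]

/-- The general criterion. -/
theorem criterion (p : ℕ) [Fact p.Prime] [CharP K p] (τ : ℕ → K)
    (h1 : ∀ j, ∃ b : A, τ j ^ p = algebraMap A K b)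
    (h2 : ∀ a : A, a ≠ 0 → ∃ j, ∀ b : A, algebraMap A K a * τ j ≠ algebraMap A K b)
    (I : Type u) : IsEmpty (MvPolynomial I (flat A K) ≃ₐ[flat A K] BD K) := by
  constructor
  intro e
  have hmem : (⟨lin K τ, lin_mem K τ⟩ : BD K) ^ p ∈ flat A K := by
    refine ⟨1, one_ne_zero, fun m => ?_⟩
    rw [Subring.coe_pow, coeff_lin_pow K p]
    choose b hb using h1
    refine ⟨∑ j ∈ m.support, if m = p • Finsupp.single j 1 then b j else 0, ?_⟩
    rw [map_one, one_mul, map_sum]
    apply Finset.sum_congr rfl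
    intro j _
    split_ifs
    · exact hb j
    · rw [map_zero]
  obtain ⟨a, ha, hf⟩ := root_mem A K p I e _ hmem
  obtain ⟨j, hj⟩ := h2 a ha
  obtain ⟨b, hb⟩ := hf (Finsupp.single j 1)
  rw [coeff_lin_single] at hb
  exact hj b hb

end general

section example_ring

/-- The monoid of the finitely supported families of rational numbers each of which is `0` or at
least `1`. -/
def Mon : AddSubmonoid (ℕ →₀ ℚ) where
  carrier := {f | ∀ i, f i = 0 ∨ 1 ≤ f i}
  add_mem' := by
    intro f g hf hg i
    rw [Finsupp.add_apply]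
    rcases hf i with h | h <;> rcases hg i with h' | h'
    · left; rw [h, h', add_zero]
    · right; rw [h, zero_add]; exact h'
    · right; rw [h', add_zero]; exact h
    · right; linarith
  zero_mem' := fun i => Or.inl rfl

/-- The monoid algebra. -/
abbrev Alg (p : ℕ) [Fact p.Prime] : Type := AddMonoidAlgebra (ZMod p) Mon

instance : UniqueSums Mon := by
  apply UniqueSums.of_injective_addHom (Mon.subtype : Mon →ₙ+ (ℕ →₀ ℚ)) Subtype.val_injective
  infer_instance

instance (p : ℕ) [Fact p.Prime] : IsDomain (Alg p) := by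
  have : Nontrivial (Alg p) := inferInstance
  exact NoZeroDivisors.to_isDomain _

/-- The indicator of the support. -/
noncomputable def ind (f : ℕ →₀ ℚ) : ℕ →₀ ℚ :=
  Finsupp.mapRange (fun x => if x = 0 then (0 : ℚ) else 1) (by simp) f

theorem ind_apply (f : ℕ →₀ ℚ) (i : ℕ) : ind f i = if f i = 0 then 0 else 1 := by
  simp [ind]

theorem ind_mem (f : ℕ →₀ ℚ) : ind f ∈ Mon := by
  intro i
  rw [ind_apply]
  by_cases h : f i = 0
  · left; rw [if_pos h]
  · right; rw [if_neg h]

theorem root_exp_mem (p : ℕ) (f : ℕ →₀ ℚ) (hf : f ∈ Mon) : (1 / (p : ℚ)) • f + ind f ∈ Mon := by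
  intro i
  rw [Finsupp.add_apply, Finsupp.smul_apply, ind_apply]
  rcases hf i with h | h
  · left; rw [h, if_pos rfl, smul_zero, add_zero]
  · right
    have h0 : f i ≠ 0 := by intro h1; rw [h1] at h; norm_num at h
    rw [if_neg h0]
    have : 0 ≤ (1 / (p : ℚ)) • f i := by
      rw [smul_eq_mul]
      positivity
    linarith

/-- The monomial with exponent `m`. -/
noncomputable def mono (p : ℕ) [Fact p.Prime] (m : Mon) : Alg p := AddMonoidAlgebra.single m 1

theorem mono_mul (p : ℕ) [Fact p.Prime] (m n : Mon) : mono p m * mono p n = mono p (m + n) := by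
  unfold mono
  rw [AddMonoidAlgebra.single_mul_single, mul_one]

theorem mono_pow (p : ℕ) [Fact p.Prime] (m : Mon) (k : ℕ) : mono p m ^ k = mono p (k • m) := by
  unfold mono
  rw [AddMonoidAlgebra.single_pow, one_pow]

theorem mono_ne_zero (p : ℕ) [Fact p.Prime] (m : Mon) : mono p m ≠ 0 := by
  unfold mono
  intro h
  have h1 := congrArg (fun x : Alg p => x.coeff m) h
  simp at h1

/-- The fraction field. -/
abbrev Fr (p : ℕ) [Fact p.Prime] : Type := FractionRing (Alg p)

instance charP_Fr (p : ℕ) [Fact p.Prime] : CharP (Fr p) p :=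
  charP_of_injective_ringHom (((algebraMap (Alg p) (Fr p)).comp
    (algebraMap (ZMod p) (Alg p))).injective) p

/-- The `p`-th root of a monomial. -/
noncomputable def root (p : ℕ) [Fact p.Prime] (m : Mon) : Fr p :=
  algebraMap (Alg p) (Fr p) (mono p ⟨(1 / (p : ℚ)) • m.1 + ind m.1, root_exp_mem p m.1 m.2⟩) /
    algebraMap (Alg p) (Fr p) (mono p ⟨ind m.1, ind_mem m.1⟩)

theorem algebraMap_mono_ne_zero (p : ℕ) [Fact p.Prime] (m : Mon) :
    algebraMap (Alg p) (Fr p) (mono p m) ≠ 0 := by
  intro h
  exact mono_ne_zero p m ((IsFractionRing.injective (Alg p) (Fr p)) (by rw [h, map_zero]))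

theorem root_pow (p : ℕ) [hp : Fact p.Prime] (m : Mon) :
    root p m ^ p = algebraMap (Alg p) (Fr p) (mono p m) := by
  unfold root
  rw [div_pow, div_eq_iff (pow_ne_zero _ (algebraMap_mono_ne_zero p _)), ← map_pow, ← map_pow,
    ← map_mul, mono_pow, mono_pow, mono_mul]
  congr 2
  apply Subtype.ext
  have hp0 : (p : ℚ) ≠ 0 := by exact_mod_cast hp.out.ne_zero
  show p • ((1 / (p : ℚ)) • m.1 + ind m.1) = m.1 + p • ind m.1
  ext i
  simp only [Finsupp.smul_apply, Finsupp.add_apply, nsmul_eq_mul, smul_eq_mul]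
  field_simp

theorem perfect_Fr (p : ℕ) [hp : Fact p.Prime] : PerfectField (Fr p) := by
  have h1 : ∀ a : Alg p, ∃ y : Fr p, y ^ p = algebraMap (Alg p) (Fr p) a := by
    intro a
    induction a using AddMonoidAlgebra.induction_on with
    | of m => exact ⟨root p m, root_pow p m⟩
    | add x y hx hy =>
      obtain ⟨u, hu⟩ := hx
      obtain ⟨v, hv⟩ := hy
      exact ⟨u + v, by rw [add_pow_char, hu, hv, map_add]⟩
    | smul c x hx =>
      obtain ⟨u, hu⟩ := hx
      refine ⟨algebraMap (Alg p) (Fr p) (algebraMap (ZMod p) (Alg p) c) * u, ?_⟩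
      rw [mul_pow, hu, ← map_pow, ← map_pow, ZMod.pow_card, Algebra.smul_def, map_mul]
  have hsurj : Function.Surjective (frobenius (Fr p) p) := by
    intro x
    obtain ⟨a, b, -, rfl⟩ := IsFractionRing.div_surjective (A := Alg p) x
    obtain ⟨u, hu⟩ := h1 a
    obtain ⟨v, hv⟩ := h1 b
    exact ⟨u / v, by rw [frobenius_def, div_pow, hu, hv]⟩
  have : PerfectRing (Fr p) p := PerfectRing.ofSurjective (Fr p) p hsurj
  exact PerfectRing.toPerfectField (Fr p) p

theorem single_mem (j : ℕ) : (Finsupp.single j (1 : ℚ)) ∈ Mon := by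
  intro i
  by_cases h : j = i
  · right; rw [h, Finsupp.single_eq_same]
  · left; rw [Finsupp.single_eq_of_ne' h]

/-- The exponent of `t_j`. -/
noncomputable def dl (j : ℕ) : Mon := ⟨Finsupp.single j 1, single_mem j⟩

theorem unbounded (p : ℕ) [hp : Fact p.Prime] (a : Alg p) (ha : a ≠ 0) :
    ∃ j, ∀ b : Alg p, algebraMap (Alg p) (Fr p) a * root p (dl j) ≠ algebraMap (Alg p) (Fr p) b := by
  classical
  obtain ⟨j, hj⟩ := Infinite.exists_notMem_finset (a.coeff.support.biUnion fun s => s.1.support)
  refine ⟨j, fun b hb => ?_⟩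
  have hne : a.coeff.support.Nonempty := by
    rw [Finsupp.support_nonempty_iff]
    intro h
    apply ha
    ext s
    rw [h]
    rfl
  obtain ⟨s, hs⟩ := hne
  have hsj : s.1 j = 0 := by
    by_contra h
    exact hj (Finset.mem_biUnion.2 ⟨s, hs, Finsupp.mem_support_iff.2 h⟩)
  unfold root at hb
  rw [← mul_div_assoc, div_eq_iff (algebraMap_mono_ne_zero p _), ← map_mul, ← map_mul] at hb
  have h1 := IsFractionRing.injective (Alg p) (Fr p) hb
  set u : Mon := ⟨(1 / (p : ℚ)) • (dl j).1 + ind (dl j).1, root_exp_mem p (dl j).1 (dl j).2⟩ with hu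
  set v : Mon := ⟨ind (dl j).1, ind_mem (dl j).1⟩ with hv
  have h2 := congrArg (fun x : Alg p => x.coeff (s + u)) h1
  simp only [mono] at h2
  have hp0 : (0 : ℚ) < p := by exact_mod_cast hp.out.pos
  have hp1 : (1 : ℚ) < p := by exact_mod_cast hp.out.one_lt
  rw [AddMonoidAlgebra.coeff_mul_single_add, AddMonoidAlgebra.coeff_mul_single_of_forall_add_ne] at h2
  · rw [mul_one] at h2
    exact (Finsupp.mem_support_iff.1 hs) h2
  · intro d hd
    have h3 := congrArg (fun x : Mon => x.1 j) hd
    have h4 : d.1 j + 1 = s.1 j + (1 / (p : ℚ) + 1) := by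
      simpa [hu, hv, dl, ind_apply] using h3
    rw [hsj] at h4
    have h5 : d.1 j = 1 / (p : ℚ) := by linarith
    have h6 : 0 < 1 / (p : ℚ) := by positivity
    have h7 : 1 / (p : ℚ) < 1 := by rw [div_lt_one hp0]; exact hp1
    rcases d.2 j with h | h
    · rw [h5] at h; linarith
    · rw [h5] at h; linarith

end example_ring

/-- **Disproof.** For every prime `p` there is an integral domain `A` of characteristic `p`, with
perfect fraction field `K`, for which the ring `R` of series of bounded degree in `x_0, x_1, …` over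
`K` is not isomorphic, as an algebra over its subring `R♭` of series with bounded denominators, to
a polynomial ring over `R♭` in any set of variables. -/
theorem result (p : ℕ) (hp : p.Prime) :
    ∃ (A K : Type) (_ : CommRing A) (_ : IsDomain A) (_ : Field K) (_ : Algebra A K),
      IsFractionRing A K ∧ CharP A p ∧ PerfectField K ∧ ∀ I : Type u, ¬ IsPolynomialOver A K I := by
  have hfact : Fact p.Prime := ⟨hp⟩
  refine ⟨Alg p, Fr p, inferInstance, inferInstance, inferInstance, inferInstance, inferInstance,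
    charP_of_injective_algebraMap (algebraMap (ZMod p) (Alg p)).injective p, perfect_Fr p, ?_⟩
  intro I h
  obtain ⟨e⟩ := h
  exact (criterion (Alg p) (Fr p) p (fun j => root p (dl j))
    (fun j => ⟨_, root_pow p (dl j)⟩) (unbounded p) I).false e

end Pool.Agent.Results.MP_5fe329_al.NotPolynomialOverFlat
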